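import Pool.Agent.H13.EC.Defs

/-!
# NZ: a character does not kill a cubic polynomial on a subgroup of finite index
-/

open Polynomial

namespace Pool.Agent.H16.EC

open Pool.Agent.H13.EC

universe u

theorem nz : T_NZ.{u} := by
  intro F _ _ _ χ α a b H hα hH hsq hcub
  have h2 : ∀ x : F, x + x = 0 := fun x => CharTwo.add_self_eq_zero x
  -- the additive maps
  let sq : F →+ F :=
    { toFun := fun x => x ^ 2
      map_zero' := by simp
      map_add' := fun x y => CharTwo.add_sq x y }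
  have hsqa : ∀ x, sq x = x ^ 2 := fun _ => rfl
  let w : F →+ F :=
    { toFun := fun y => α ^ 2 * y + α ^ 4 * y ^ 4
      map_zero' := by simp
      map_add' := fun x y => by
        have h4 : (x + y) ^ 4 = x ^ 4 + y ^ 4 := by
          have e1 : (x + y) ^ 4 = ((x + y) ^ 2) ^ 2 := by ring
          rw [e1, CharTwo.add_sq, CharTwo.add_sq]
          ring
        rw [h4]
        ring }
  have hwa : ∀ y, w y = α ^ 2 * y + α ^ 4 * y ^ 4 := fun _ => rfl
  -- step one
  have hxy : ∀ x ∈ H, ∀ y ∈ H, χ (x ^ 2 * w y) = 0 := by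
    intro x hx y hy
    have e1 := hcub (x + y) (H.add_mem hx hy)
    have e2 := hcub x hx
    have e3 := hcub y hy
    have e4 : α ^ 2 * (x + y) ^ 3 + a * (x + y) ^ 2 + b * (x + y) =
        (α ^ 2 * x ^ 3 + a * x ^ 2 + b * x) + (α ^ 2 * y ^ 3 + a * y ^ 2 + b * y) +
          (α ^ 2 * (x ^ 2 * y) + α ^ 2 * (x * y ^ 2)) := by
      have h3 : (x + y) ^ 3 = x ^ 3 + y ^ 3 + x ^ 2 * y + x * y ^ 2 := by
        linear_combination h2 (x ^ 2 * y) + h2 (x * y ^ 2)
      rw [h3, CharTwo.add_sq]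
      ring
    rw [e4, map_add, map_add, e2, e3, zero_add, zero_add, map_add] at e1
    have e5 : χ (α ^ 2 * (x * y ^ 2)) = χ (α ^ 4 * x ^ 2 * y ^ 4) := by
      rw [← hsq (α ^ 2 * (x * y ^ 2))]
      congr 1
      ring
    rw [e5, ← map_add] at e1
    rw [hwa, ← e1]
    congr 1
    ring
  -- the subgroup `W`
  let W : AddSubgroup F :=
    { carrier := {z | ∀ x : F, χ (x ^ 2 * z) = 0}
      zero_mem' := fun x => by rw [mul_zero, map_zero]
      add_mem' := fun {s t} hs ht x => by rw [mul_add, map_add, hs x, ht x, add_zero]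
      neg_mem' := fun {s} hs x => by rw [mul_neg, map_neg, hs x, neg_zero] }
  have hWm : ∀ z, z ∈ W ↔ ∀ x : F, χ (x ^ 2 * z) = 0 := fun _ => Iff.rfl
  have hWsq : ∀ s z, z ∈ W → s ^ 2 * z ∈ W := by
    intro s z hz x
    have := hz (x * s)
    rwa [mul_pow, mul_assoc] at this
  -- finiteness
  let Θ₀ : H → (F →+ ZMod 2) := fun y =>
    { toFun := fun x => χ (x ^ 2 * w y)
      map_zero' := by simp
      map_add' := fun x x' => by rw [CharTwo.add_sq, add_mul, map_add] }
  have hΘ₀ : ∀ (y : H) (x : F), Θ₀ y x = χ (x ^ 2 * w y) := fun _ _ => rfl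
  have hker : ∀ y : H, H ≤ (Θ₀ y).ker := by
    intro y x hx
    rw [AddMonoidHom.mem_ker, hΘ₀]
    exact hxy x hx y y.2
  let Θ : H →+ ((F ⧸ H) →+ ZMod 2) :=
    { toFun := fun y => QuotientAddGroup.lift H (Θ₀ y) (hker y)
      map_zero' := by
        ext x
        simp [hΘ₀]
      map_add' := fun y y' => by
        ext x
        simp [hΘ₀, mul_add, map_add] }
  have hΘ : ∀ (y : H) (x : F), Θ y (x : F ⧸ H) = χ (x ^ 2 * w y) := fun _ _ => rfl
  have hfin : Finite (F ⧸ H) := inferInstance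
  have hfin2 : Finite ((F ⧸ H) →+ ZMod 2) := DFunLike.finite _
  have hk : Θ.ker.FiniteIndex := inferInstance
  -- the subgroup `H₁`
  let H₁ : AddSubgroup F := H ⊓ W.comap w
  have hH₁le : H₁ ≤ H := inf_le_left
  have hH₁W : ∀ y ∈ H₁, w y ∈ W := fun y hy => hy.2
  have heq : H₁.addSubgroupOf H = Θ.ker := by
    ext y
    rw [AddSubgroup.mem_addSubgroupOf, AddMonoidHom.mem_ker]
    constructor
    · intro hy
      ext x
      have := (hH₁W y hy) x
      simpa [hΘ] using this
    · intro hy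
      refine ⟨y.2, fun x => ?_⟩
      have := congrArg (fun f : (F ⧸ H) →+ ZMod 2 => f (x : F ⧸ H)) hy
      simpa [hΘ] using this
  have hH₁fin : H₁.FiniteIndex := by
    refine ⟨?_⟩
    rw [← AddSubgroup.relIndex_mul_index hH₁le]
    refine mul_ne_zero ?_ hH.index_ne_zero
    rw [AddSubgroup.relIndex, heq]
    exact hk.index_ne_zero
  -- subgroups of finite index are infinite
  have hinf : ∀ G : AddSubgroup F, G.FiniteIndex → (G : Set F).Infinite := by
    intro G hG hGf
    have h1 : Finite G := hGf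
    have h3 : Finite (F ⧸ G) := inferInstance
    have h4 : Finite F := Finite.of_equiv _ (AddSubgroup.addGroupEquivQuotientProdAddSubgroup (s := G)).symm
    exact not_finite F
  have hcomap : (H₁.comap sq).FiniteIndex := by
    have hq : Finite (F ⧸ H₁) := inferInstance
    have e1 : H₁.comap sq = ((QuotientAddGroup.mk' H₁).comp sq).ker := by
      ext y
      rw [AddSubgroup.mem_comap, AddMonoidHom.mem_ker, AddMonoidHom.comp_apply,
        QuotientAddGroup.mk'_apply, QuotientAddGroup.eq_zero_iff]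
    rw [e1]
    infer_instance
  obtain ⟨z, hz, hu⟩ : ∃ z, z ^ 2 ∈ H₁ ∧ α * z + α ^ 2 * z ^ 4 ≠ 0 := by
    by_contra hcon
    push Not at hcon
    have hP : (C (α ^ 2) * X ^ 4 + C α * X : F[X]) ≠ 0 := by
      intro h0
      have h1 := congrArg (fun P : F[X] => P.coeff 1) h0
      rw [coeff_add, coeff_C_mul, coeff_C_mul, coeff_X_pow, coeff_X_one, coeff_zero,
        if_neg (by norm_num), mul_zero, zero_add, mul_one] at h1
      exact hα h1
    classical
    refine hinf _ hcomap (Set.Finite.subset (C (α ^ 2) * X ^ 4 + C α * X : F[X]).roots.toFinset.finite_toSet ?_)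
    intro z hz
    have h1 := hcon z hz
    rw [Finset.mem_coe, Multiset.mem_toFinset, mem_roots hP, IsRoot.def]
    simp only [eval_add, eval_mul, eval_C, eval_pow, eval_X]
    rw [← h1]
    ring
  have h1W : (1 : F) ∈ W := by
    have e1 := hWsq (1 / (α * z + α ^ 2 * z ^ 4)) _ (hH₁W _ hz)
    have e2 : (1 / (α * z + α ^ 2 * z ^ 4)) ^ 2 * w (z ^ 2) = 1 := by
      have e3 : w (z ^ 2) = (α * z + α ^ 2 * z ^ 4) ^ 2 := by
        rw [CharTwo.add_sq, hwa]
        ring
      rw [e3, ← mul_pow, one_div, inv_mul_cancel₀ hu, one_pow]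
    rwa [e2] at e1
  have hsW : ∀ s : F, s ^ 2 ∈ W := by
    intro s
    have := hWsq s 1 h1W
    rwa [mul_one] at this
  have hH₁W' : H₁ ≤ W := by
    intro y hy
    have e1 := hH₁W y hy
    have e2 := hsW (α ^ 2 * y ^ 2)
    have e3 := W.sub_mem e1 e2
    have e4 := hWsq (1 / α) _ e3
    have e5 : (1 / α) ^ 2 * (w y - (α ^ 2 * y ^ 2) ^ 2) = y := by
      rw [hwa]
      field_simp
      ring
    rwa [e5] at e4
  have hWfin : W.FiniteIndex := AddSubgroup.finiteIndex_of_le hH₁W'
  -- conclusion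
  ext f
  rw [AddMonoidHom.zero_apply]
  have hfW : f ∈ W := by
    have h3 : Finite (F ⧸ W) := inferInstance
    obtain ⟨t₁, t₂, hne, ht⟩ := Finite.exists_ne_map_eq_of_infinite
      (fun t : F => ((t ^ 2 * f : F) : F ⧸ W))
    rw [QuotientAddGroup.eq] at ht
    have e1 : -(t₁ ^ 2 * f) + t₂ ^ 2 * f = (t₂ - t₁) ^ 2 * f := by
      have e2 : (t₂ - t₁) ^ 2 = t₂ ^ 2 - t₁ ^ 2 := by
        have := h2 (t₁ ^ 2)
        have h5 := h2 (t₂ * t₁)
        linear_combination this - h5
      rw [e2]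
      ring
    rw [e1] at ht
    have e3 := hWsq (1 / (t₂ - t₁)) _ ht
    have hne' : t₂ - t₁ ≠ 0 := sub_ne_zero.2 (Ne.symm hne)
    have e4 : (1 / (t₂ - t₁)) ^ 2 * ((t₂ - t₁) ^ 2 * f) = f := by
      field_simp
    rwa [e4] at e3
  have := hfW 1
  rwa [one_pow, one_mul] at this

end Pool.Agent.H16.EC
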